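import Pool.Agent.Lib.MP_b5021c_nt.IfaceEV

/-!
# MP_b5021c_nt, board b5, stage 3, row EV_APG: the analytic part for means of modulus `< 1/√3`
-/

namespace Pool.Agent.B5.H45

open scoped LaurentPolynomial
open Pool.Agent.B5

/-- Pointwise computation: the exact identity. -/
theorem apg_pt {w d s q u g : ℂ} (hw : ‖w‖ = 1) (hre : w.re = 1 / 2) (hd : d ≠ 0)
    (h1 : d + w * s = (1 - w) * (q * u)) (h2 : d + s = g * u)
    (h3 : (starRingEnd ℂ) g * q = g * (starRingEnd ℂ) q) :
    -2 * (s / d).re + (1 / w.im) * (s / d).im = 1 + (s / d).re ^ 2 + (s / d).im ^ 2 := by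
  have hv : w.im * w.im = 3 / 4 := by
    have h4 : w.re * w.re + w.im * w.im = 1 := by
      have h5 := Complex.normSq_apply w
      rw [Complex.normSq_eq_norm_sq, hw] at h5
      linarith
    rw [hre] at h4
    linarith
  have hv0 : w.im ≠ 0 := by
    intro h
    rw [h] at hv
    norm_num at hv
  have hc : 1 - w = (starRingEnd ℂ) w := by
    apply Complex.ext
    · rw [Complex.sub_re, Complex.one_re, Complex.conj_re, hre]
      norm_num
    · rw [Complex.sub_im, Complex.one_im, Complex.conj_im, zero_sub]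
  have hww : w * (starRingEnd ℂ) w = 1 := by
    rw [Complex.mul_conj, Complex.normSq_eq_norm_sq, hw]
    norm_num
  set F : ℂ := s / d with hF
  set u' : ℂ := u / d with hu
  have e1 : 1 + w * F = (starRingEnd ℂ) w * (q * u') := by
    rw [hF, hu]
    field_simp
    rw [h1, hc]
    ring
  have e2 : 1 + F = g * u' := by
    rw [hF, hu]
    field_simp
    rw [h2]
  have e3 : w * (1 + w * F) * (starRingEnd ℂ) (1 + F) =
      (q * (starRingEnd ℂ) g) * (u' * (starRingEnd ℂ) u') := by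
    rw [e1, e2, map_mul]
    linear_combination (q * u' * ((starRingEnd ℂ) g * (starRingEnd ℂ) u')) * hww
  have e4 : (q * (starRingEnd ℂ) g).im = 0 := by
    rw [← Complex.conj_eq_iff_im, map_mul, Complex.conj_conj, mul_comm, ← h3, mul_comm]
  have e5 : (w * (1 + w * F) * (starRingEnd ℂ) (1 + F)).im = 0 := by
    rw [e3, Complex.mul_conj, Complex.mul_im, e4, Complex.ofReal_im]
    ring
  simp only [Complex.mul_im, Complex.mul_re, Complex.add_re, Complex.add_im, Complex.one_re,
    Complex.one_im, Complex.conj_re, Complex.conj_im, map_add, map_one, hre] at e5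
  field_simp
  linear_combination (-1 : ℝ) * e5 - F.im * hv

/-- APG -/
theorem apg (hEv : EvRS) : ApgS := by
  intro O _ _ _ _ D0 DS g q0 U0 e₁ e₂ hAdj hz hmn h1 h2 h3
  obtain ⟨hE1, -, hE3, -⟩ := hEv O
  obtain ⟨w, hw1, hw2, hw3⟩ := hAdj
  have hunit : (e₁ : RO O) * ((e₂⁻¹ : (RO O)ˣ) : RO O) = LaurentPolynomial.C w := by
    rw [hw1, mul_assoc, Units.mul_inv, mul_one]
  rw [hunit] at h1
  have hC : ∀ z : Circle, evR z (LaurentPolynomial.C w : RO O) = Coef.emb w := by
    intro z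
    unfold evR
    rw [LaurentPolynomial.eval₂_C]
  set ω : ℂ := Coef.emb w with hω
  set m : ℂ := mn ((e₂ : RO O) * DS) D0 with hm
  -- the pointwise inequality
  have hpt : ∀ z : ℂ, z ∈ Metric.sphere (0 : ℂ) |1| →
      1 - (m.re ^ 2 + m.im ^ 2) ≤
        ((-2 - 2 * m.re : ℝ) • Complex.reCLM + (1 / ω.im - 2 * m.im) • Complex.imCLM)
          (evL z ((e₂ : RO O) * DS) / evL z D0) := by
    intro z hzs
    have hzn : ‖z‖ = 1 := by
      rw [mem_sphere_zero_iff_norm, abs_one] at hzs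
      exact hzs
    obtain ⟨c, rfl⟩ : ∃ c : Circle, (c : ℂ) = z := ⟨⟨z, mem_sphere_zero_iff_norm.2 hzn⟩, rfl⟩
    rw [hE1 c, hE1 c]
    have k1 : evR c D0 + ω * evR c ((e₂ : RO O) * DS) =
        (1 - ω) * (evR c q0 * evR c U0) := by
      have := congrArg (evR c) h1
      rw [map_add, map_mul, map_mul, map_mul, map_sub, map_one, hC, hw1, map_mul, hC] at this
      rw [map_mul]
      linear_combination this
    have k2 : evR c D0 + evR c ((e₂ : RO O) * DS) = evR c g * evR c U0 := by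
      have := congrArg (evR c) h2
      rw [map_add, map_mul (evR c) g] at this
      exact this
    have k3 : (starRingEnd ℂ) (evR c g) * evR c q0 = evR c g * (starRingEnd ℂ) (evR c q0) := by
      have := congrArg (evR c) h3
      rw [map_mul, map_mul, hE3, hE3] at this
      exact this
    have h4 := apg_pt (w := ω) hw2 hw3 (hz c) k1 k2 k3
    set F : ℂ := evR c ((e₂ : RO O) * DS) / evR c D0 with hF
    have h5 : ((-2 - 2 * m.re : ℝ) • Complex.reCLM + (1 / ω.im - 2 * m.im) • Complex.imCLM) F =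
        (-2 - 2 * m.re) * F.re + (1 / ω.im - 2 * m.im) * F.im := by
      simp
    rw [h5]
    nlinarith [sq_nonneg (F.re - m.re), sq_nonneg (F.im - m.im)]
  -- continuity
  have hcont : ∀ Q : RO O, ContinuousOn (fun z : ℂ => evL z Q) (Metric.sphere (0 : ℂ) 1) := by
    intro Q
    unfold evL Finsupp.sum
    refine continuousOn_finsetSum _ fun i _ => ?_
    refine ContinuousOn.mul continuousOn_const ?_
    refine ContinuousOn.zpow₀ continuousOn_id _ fun z hz0 => Or.inl ?_
    intro h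
    rw [mem_sphere_zero_iff_norm] at hz0
    rw [show z = 0 from h, norm_zero] at hz0
    norm_num at hz0
  have hne : ∀ z ∈ Metric.sphere (0 : ℂ) 1, evL z D0 ≠ 0 := by
    intro z hzs
    obtain ⟨c, rfl⟩ : ∃ c : Circle, (c : ℂ) = z := ⟨⟨z, hzs⟩, rfl⟩
    rw [hE1 c]
    exact hz c
  have hF : ContinuousOn (fun z : ℂ => evL z ((e₂ : RO O) * DS) / evL z D0)
      (Metric.sphere (0 : ℂ) 1) := (hcont _).div (hcont _) hne
  have hFi : CircleIntegrable (fun z : ℂ => evL z ((e₂ : RO O) * DS) / evL z D0) 0 1 :=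
    hF.circleIntegrable zero_le_one
  set ℓ : ℂ →L[ℝ] ℝ := (-2 - 2 * m.re : ℝ) • Complex.reCLM +
    (1 / ω.im - 2 * m.im) • Complex.imCLM with hℓ
  have hℓi : CircleIntegrable (ℓ ∘ fun z : ℂ => evL z ((e₂ : RO O) * DS) / evL z D0) 0 1 :=
    (ℓ.continuous.comp_continuousOn hF).circleIntegrable zero_le_one
  have hmean : 1 - (m.re ^ 2 + m.im ^ 2) ≤ ℓ (mn ((e₂ : RO O) * DS) D0) := by
    unfold mn
    rw [← ContinuousLinearMap.circleAverage_comp_comm ℓ hFi]
    have h4 := Real.circleAverage_mono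
      (circleIntegrable_const (1 - (m.re ^ 2 + m.im ^ 2) : ℝ) 0 1) hℓi hpt
    rw [Real.circleAverage_const] at h4
    exact h4
  rw [← hm] at hmean
  have hval : ℓ m = (-2 - 2 * m.re) * m.re + (1 / ω.im - 2 * m.im) * m.im := by
    rw [hℓ]
    simp
  rw [hval] at hmean
  have hv : ω.im * ω.im = 3 / 4 := by
    have h4 : ω.re * ω.re + ω.im * ω.im = 1 := by
      have h5 := Complex.normSq_apply ω
      rw [Complex.normSq_eq_norm_sq, hw2] at h5
      linarith
    rw [hw3] at h4
    linarith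
  have hm2 : ‖m‖ ^ 2 = m.re ^ 2 + m.im ^ 2 := by
    have h5 := Complex.normSq_apply m
    rw [Complex.normSq_eq_norm_sq] at h5
    rw [h5]
    ring
  rw [hm2] at hmn
  have hv2 : (1 / ω.im) ^ 2 = 4 / 3 := by
    rw [div_pow, one_pow, sq, hv]
    norm_num
  set a := m.re with ha
  set b := m.im with hb
  set t := 1 / ω.im with ht
  -- `1 + r ≤ -2 a + t b`, `(-2 a + t b)² ≤ (16/3) r`
  have hlin : 1 + (a ^ 2 + b ^ 2) ≤ -2 * a + t * b := by nlinarith
  have hr0 : 0 ≤ a ^ 2 + b ^ 2 := by positivity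
  have hcs : (-2 * a + t * b) ^ 2 ≤ (16 / 3) * (a ^ 2 + b ^ 2) := by
    nlinarith [sq_nonneg (t * a + 2 * b)]
  have hsq : (1 + (a ^ 2 + b ^ 2)) ^ 2 ≤ (-2 * a + t * b) ^ 2 :=
    pow_le_pow_left₀ (by linarith) hlin 2
  nlinarith

end Pool.Agent.B5.H45
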