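import Pool.Agent.Lib.MP_b5021c_nt.IfaceE5

/-!
# Row NW5 of chapter E5: the window inequality
-/

set_option autoImplicit false

namespace Pool.Agent.B5.H45

open Pool.Agent.B5

theorem nw5 : Nw5S := by
  intro θ C x y hθ hC0 hC hyx hC72 hsum
  have hθ0 : (0 : ℝ) < θ := by linarith
  obtain ⟨a, ha⟩ : ∃ a : ℝ, a = |y| := ⟨_, rfl⟩
  have ha0 : 0 ≤ a := by rw [ha]; exact abs_nonneg y
  have hy2 : y ^ 2 = a ^ 2 := by rw [ha, sq_abs]
  rw [← ha] at hyx hsum
  rw [hy2] at hC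
  rw [hy2]
  obtain ⟨s, hs⟩ : ∃ s : ℝ, s = Real.sqrt 3 := ⟨_, rfl⟩
  rw [← hs] at hyx hsum
  have s3 : s * s = 3 := by rw [hs]; exact Real.mul_self_sqrt (by norm_num)
  have s0 : 0 ≤ s := by rw [hs]; exact Real.sqrt_nonneg 3
  have s1 : (1.732 : ℝ) < s := by nlinarith
  have s2 : s < 1.7321 := by nlinarith
  clear hs hy2 ha
  have hx0 : 0 ≤ x := le_trans (mul_nonneg s0 ha0) hyx
  have h3a : 3 * a ^ 2 ≤ x ^ 2 := by
    have h := mul_self_le_mul_self (mul_nonneg s0 ha0) hyx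
    have e : s * a * (s * a) = 3 * a ^ 2 := by
      calc s * a * (s * a) = s * s * a ^ 2 := by ring
        _ = 3 * a ^ 2 := by rw [s3]
    nlinarith
  have hx62 : 62 / 100 ≤ x := by
    by_contra h
    push Not at h
    nlinarith
  -- `C ≤ x + a/(2√3)`
  have hCa : C ≤ x + 0.289 * a := by
    have h1 : (C : ℝ) ^ 2 ≤ (x + 0.289 * a) ^ 2 := by
      have h2 : s * a * a ≤ x * a := mul_le_mul_of_nonneg_right hyx ha0
      have h3 : 1.732 * a * a ≤ s * a * a := by
        have := mul_nonneg ha0 ha0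
        nlinarith
      nlinarith [mul_nonneg ha0 ha0]
    exact abs_le_of_sq_le_sq' h1 (by positivity) |>.2
  have h7 : 0 < 1 / θ := by positivity
  have h7' : 1 / θ ≤ 1 / 1000000 := one_div_le_one_div_of_le (by norm_num) hθ
  have e7 : 7 / θ = 7 * (1 / θ) := by ring
  rw [e7] at hsum
  have hsa : 1.732 * a ≤ s * a := mul_le_mul_of_nonneg_right s1.le ha0
  have hC1 : C ≤ 1 + 7 * (1 / θ) - 1.443 * a := by linarith
  refine ⟨hx62, by linarith, ?_⟩
  intro τ hτ0 hτ1 hxτ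
  by_cases h5 : 5 * (1 / θ) ≤ a
  · have : C ≤ 1 := by linarith
    have h := mul_le_mul_of_nonneg_right this hθ0.le
    linarith
  · push Not at h5
    have hθa : a * θ ≤ 5 := by
      have h := mul_le_mul_of_nonneg_right h5.le hθ0.le
      have e : 5 * (1 / θ) * θ = 5 := by field_simp
      linarith
    have hCx : C ≤ x + a ^ 2 / 1.24 := by
      have h1 : (C : ℝ) ^ 2 ≤ (x + a ^ 2 / 1.24) ^ 2 := by
        have h2 : 0 ≤ (x - 62 / 100) * a ^ 2 := mul_nonneg (by linarith) (by positivity)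
        have h3 : 0 ≤ (a ^ 2 / 1.24) ^ 2 := by positivity
        have e : (x + a ^ 2 / 1.24) ^ 2
            = x ^ 2 + (((x - 62 / 100) * a ^ 2) / 0.62 + a ^ 2) + (a ^ 2 / 1.24) ^ 2 := by ring
        have h4 : 0 ≤ ((x - 62 / 100) * a ^ 2) / 0.62 := div_nonneg h2 (by norm_num)
        rw [e, hC]
        linarith
      exact abs_le_of_sq_le_sq' h1 (by positivity) |>.2
    have hxθ : x * θ ≤ θ + 3 * a ^ 2 + τ := by
      have h := mul_le_mul_of_nonneg_right hxτ hθ0.le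
      have e : (1 + (3 * a ^ 2 + τ) / θ) * θ = θ + 3 * a ^ 2 + τ := by field_simp; ring
      linarith
    have ha1 : a ≤ 5 / 1000000 := by linarith
    have ha2 : a ^ 2 * θ ≤ 25 / 1000000 := by
      have h1 : a ^ 2 * θ = a * (a * θ) := by ring
      have h2 : a * (a * θ) ≤ a * 5 := mul_le_mul_of_nonneg_left hθa ha0
      linarith
    have ha3 : 3 * a ^ 2 ≤ 1 / 100000 := by nlinarith
    have hfin : C * θ ≤ x * θ + (a ^ 2 * θ) / 1.24 := by
      have h := mul_le_mul_of_nonneg_right hCx hθ0.le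
      have e : (x + a ^ 2 / 1.24) * θ = x * θ + (a ^ 2 * θ) / 1.24 := by ring
      linarith
    have h124 : (a ^ 2 * θ) / 1.24 ≤ 25 / 1000000 := by
      rw [div_le_iff₀ (by norm_num)]
      linarith
    linarith

end Pool.Agent.B5.H45
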