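import Pool.Agent.Lib.MP_b5021c_nt.IfaceAM
import Pool.Agent.Lib.MP_b5021c_nt.E.H07.Mxu
import Pool.Agent.Lib.MP_b5021c_nt.E.H63.Sel
import Pool.Agent.Lib.MP_b5021c_nt.B.H59.CstA

/-!
# Board b5, stage 3, row AM_FOU: drop two, the four rays (helper45)
-/

set_option linter.unusedSectionVars false

namespace Pool.Agent.B5.H45.Fou

open scoped LaurentPolynomial
open Pool.Agent.B5

variable {O : Type} [CommRing O] [IsDomain O] [IsPrincipalIdealRing O] [Coef O] {P : Type}
  [Fintype P] [DecidableEq P] {L : Type} [AddCommGroup L] [Module.Free ℤ L] [Module.Finite ℤ L]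

/-- Everything which is used at all rays of `C`. -/
structure Ctx (phi : L →+ (P → ℤ)) (D : AO O L) (eta : L → (RO O)ˣ) (C : Set L) : Prop where
  f1 : F1S
  f3 : F3S
  mco : McoS
  inj1 : Inj1S
  dua : DuaS
  inj : Function.Injective phi
  bin : ∀ a ∈ supp D, Bin phi a
  fp : FP phi D
  rks : rk {b | Ray D b} = Module.finrank ℤ L
  aset : ASet phi D eta 2 C
  uni : ∀ S ∈ C, ∀ T : Set L, T ⊆ supp D →
    Module.finrank ℤ (US (eta S) S D ⊔ Submodule.span ℤ T : Submodule ℤ L) =
      Module.finrank ℤ L → LamS (eta S) S D ⊔ Submodule.span ℤ T = ⊤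
  rsp : ∀ a ∈ supp D, a ≠ 0 → ∃ n : ℕ, 0 < n ∧ n • a ∈ AddSubmonoid.closure {b | Ray D b}
  top : ∃ (t : L) (u : (RO O)ˣ), (∀ a : L, D.coeff (t - a) = (u : RO O) * rsh (D.coeff a)) ∧
      ∀ S ∈ C, t ∈ LamS (eta S) S D

/-- Coordinates modulo `US`. -/
structure Crd (D : AO O L) (eta : L → (RO O)ˣ) (S R1 R2 : L) (x y : L →+ ℤ) : Prop where
  r1 : Ray D R1
  r2 : Ray D R2
  x1 : x R1 = 1
  x2 : x R2 = 0
  y1 : y R1 = 0
  y2 : y R2 = 1
  ker : ∀ a, a ∈ US (eta S) S D ↔ x a = 0 ∧ y a = 0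
  eqL : LamS (eta S) S D = US (eta S) S D

theorem lam_le (e : (RO O)ˣ) (S : L) (D : AO O L) : LamS e S D ≤ US e S D := H63.le_satur _

/-- existence of the coordinates -/
theorem crd {phi : L →+ (P → ℤ)} {D : AO O L} {eta : L → (RO O)ˣ} {C : Set L}
    (X : Ctx phi D eta C) {S : L} (hS : S ∈ C) :
    ∃ (R1 R2 : L) (x y : L →+ ℤ), Crd D eta S R1 R2 x y := by
  have hdr := X.aset.dr S hS
  obtain ⟨R1, hr1, hn1⟩ := H63.Sel.exists_ray X.rks (US (eta S) S D) (by omega)
  have e1 := H07.finrank_sup_eq (H07.US_sat (eta S) S D) hn1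
  have e2 := H07.finrank_satur (US (eta S) S D ⊔ Submodule.span ℤ {R1})
  obtain ⟨R2, hr2, hn2⟩ := H63.Sel.exists_ray X.rks
    (satur (US (eta S) S D ⊔ Submodule.span ℤ {R1})) (by omega)
  have e3 := H07.finrank_sup_eq (H63.satur_sat (US (eta S) S D ⊔ Submodule.span ℤ {R1})) hn2
  set v : Fin 2 → L := ![R1, R2] with hv
  have hrange : Set.range v = {R1, R2} := by
    rw [hv]; simp [Matrix.range_cons, Matrix.range_empty, Set.insert_union, Set.pair_comm]
  set T : Submodule ℤ L := US (eta S) S D ⊔ Submodule.span ℤ (Set.range v) with hT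
  have hm1 : R1 ∈ T := (le_sup_right : _ ≤ T) (Submodule.subset_span ⟨0, rfl⟩)
  have hm2 : R2 ∈ T := (le_sup_right : _ ≤ T) (Submodule.subset_span ⟨1, rfl⟩)
  have h4 : satur (US (eta S) S D ⊔ Submodule.span ℤ {R1}) ⊔ Submodule.span ℤ {R2} ≤ satur T := by
    rw [sup_le_iff]
    constructor
    · apply H07.satur_mono
      rw [sup_le_iff]
      refine ⟨le_sup_left, ?_⟩
      rw [Submodule.span_singleton_le_iff_mem]
      exact hm1
    · rw [Submodule.span_singleton_le_iff_mem]
      exact H63.le_satur _ hm2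
  have h5 := Submodule.finrank_mono h4
  have h6 := H07.finrank_satur T
  have h7 : Module.finrank ℤ T ≤ Module.finrank ℤ L := Submodule.finrank_le _
  have h8 := X.uni S hS (Set.range v) (by
    rintro _ ⟨i, rfl⟩
    fin_cases i
    · exact hr1.1
    · exact hr2.1) (by rw [← hT]; omega)
  have h9 : Module.finrank ℤ (LamS (eta S) S D) + 2 = Module.finrank ℤ L := by
    have := H07.finrank_satur (LamS (eta S) S D)
    have h10 : satur (LamS (eta S) S D) = US (eta S) S D := rfl
    rw [h10] at this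
    omega
  obtain ⟨hsat, mu, hmu, hker⟩ := X.dua L (LamS (eta S) S D) 2 v h9 h8
  have heq : LamS (eta S) S D = US (eta S) S D := by
    refine le_antisymm (lam_le _ _ _) ?_
    rintro a ⟨n, hn, ha⟩
    exact hsat n a hn ha
  refine ⟨R1, R2, mu 0, mu 1, hr1, hr2, ?_, ?_, ?_, ?_, ?_, heq⟩
  · simpa [hv] using hmu 0 0
  · simpa [hv] using hmu 0 1
  · simpa [hv] using hmu 1 0
  · simpa [hv] using hmu 1 1
  · intro a
    rw [← heq, hker a, Fin.forall_fin_two]

/-- two exponents with independent coordinates generate modulo `US` -/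
theorem det {phi : L →+ (P → ℤ)} {D : AO O L} {eta : L → (RO O)ˣ} {C : Set L}
    (X : Ctx phi D eta C) {S R1 R2 : L} {x y : L →+ ℤ} (hS : S ∈ C)
    (K : Crd D eta S R1 R2 x y) {v w : L} (hv : v ∈ supp D) (hw : w ∈ supp D)
    (hd : x v * y w - x w * y v ≠ 0) :
    x v * y w - x w * y v = 1 ∨ x v * y w - x w * y v = -1 := by
  set T : Submodule ℤ L := US (eta S) S D ⊔ Submodule.span ℤ {v, w} with hT
  have hm1 : v ∈ T := (le_sup_right : _ ≤ T) (Submodule.subset_span (by simp))
  have hm2 : w ∈ T := (le_sup_right : _ ≤ T) (Submodule.subset_span (by simp))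
  have h1 : ∀ a : L, a ∈ satur T := by
    intro a
    refine ⟨x v * y w - x w * y v, hd, ?_⟩
    have h2 : (x v * y w - x w * y v) • a - (x a * y w - y a * x w) • v -
        (x v * y a - x a * y v) • w ∈ US (eta S) S D := by
      rw [K.ker]
      simp only [map_sub, map_zsmul, smul_eq_mul]
      constructor <;> ring
    have h3 : (x v * y w - x w * y v) • a = ((x v * y w - x w * y v) • a -
        (x a * y w - y a * x w) • v - (x v * y a - x a * y v) • w) +
        ((x a * y w - y a * x w) • v + (x v * y a - x a * y v) • w) := by abel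
    rw [h3]
    refine T.add_mem ((le_sup_left : _ ≤ T) h2) (T.add_mem (T.smul_mem _ hm1) (T.smul_mem _ hm2))
  have h4 : Module.finrank ℤ T = Module.finrank ℤ L := by
    rw [← H07.finrank_satur T]
    have : satur T = ⊤ := eq_top_iff.mpr fun a _ => h1 a
    rw [this]
    exact finrank_top ℤ L
  have h5 := X.uni S hS {v, w} (by
    intro a ha
    rcases ha with rfl | ha
    · exact hv
    · rw [Set.mem_singleton_iff.mp ha]; exact hw) h4
  have h6 : ∀ a : L, ∃ p q : ℤ, x a = p * x v + q * x w ∧ y a = p * y v + q * y w := by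
    intro a
    have h7 : a ∈ LamS (eta S) S D ⊔ Submodule.span ℤ {v, w} := by rw [h5]; trivial
    obtain ⟨u, hu, b, hb, hab⟩ := Submodule.mem_sup.mp h7
    obtain ⟨p, q, hpq⟩ := Submodule.mem_span_pair.mp hb
    have h8 := (K.ker u).mp (lam_le _ _ _ hu)
    refine ⟨p, q, ?_, ?_⟩
    · rw [← hab, ← hpq, map_add, h8.1, map_add, map_zsmul, map_zsmul, smul_eq_mul, smul_eq_mul,
        zero_add]
    · rw [← hab, ← hpq, map_add, h8.2, map_add, map_zsmul, map_zsmul, smul_eq_mul, smul_eq_mul,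
        zero_add]
  obtain ⟨p, q, h7, h8⟩ := h6 R1
  obtain ⟨p', q', h9, h10⟩ := h6 R2
  rw [K.x1] at h7
  rw [K.y1] at h8
  rw [K.x2] at h9
  rw [K.y2] at h10
  have h11 : (x v * y w - x w * y v) * (p * q' - q * p') = 1 := by
    have h12 : (p * x v + q * x w) * (p' * y v + q' * y w) -
        (p' * x v + q' * x w) * (p * y v + q * y w) = 1 := by
      rw [← h7, ← h8, ← h9, ← h10]; norm_num
    linear_combination h12
  exact Int.eq_one_or_neg_one_of_mul_eq_one h11

/-- values -/
theorem val {phi : L →+ (P → ℤ)} {D : AO O L} {eta : L → (RO O)ˣ} {C : Set L}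
    (X : Ctx phi D eta C) {S R1 R2 : L} {x y : L →+ ℤ} (hS : S ∈ C)
    (K : Crd D eta S R1 R2 x y) (h12 : R1 + R2 ∈ supp D) {v : L} (hv : v ∈ supp D) :
    (x v = 0 ∨ x v = 1 ∨ x v = -1) ∧ (y v = 0 ∨ y v = 1 ∨ y v = -1) ∧
      (x v - y v = 0 ∨ x v - y v = 1 ∨ x v - y v = -1) := by
  have a1 := det X hS K K.r1.1 hv
  have a2 := det X hS K hv K.r2.1
  have a3 := det X hS K h12 hv
  simp only [map_add, K.x1, K.x2, K.y1, K.y2] at a1 a2 a3
  refine ⟨?_, ?_, ?_⟩ <;> omega

/-- mutual rays: the sum is an exponent -/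
theorem sum_mem {phi : L →+ (P → ℤ)} {D : AO O L} {eta : L → (RO O)ˣ} {C : Set L}
    (X : Ctx phi D eta C) {R R' : L} (h : Mut D R R' (eta R) (eta R')) : R + R' ∈ supp D := by
  intro h0
  have h1 := (X.mco O P L phi D R R' (eta R) (eta R') X.inj X.bin h).2.2.1
  rw [h0, mul_zero] at h1
  have h2 : ((eta R : (RO O)ˣ) : RO O) * D.coeff R = 0 := neg_eq_zero.mp h1.symm
  exact h.r0.1 ((mul_eq_zero.mp h2).resolve_left (eta R).ne_zero)

/-- rays with independent coordinates are mutual -/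
theorem mutr {phi : L →+ (P → ℤ)} {D : AO O L} {eta : L → (RO O)ˣ} {C : Set L}
    (X : Ctx phi D eta C) {S R1 R2 : L} {x y : L →+ ℤ} (hS : S ∈ C)
    (K : Crd D eta S R1 R2 x y) {R R' : L} (hR : Ray D R) (hR' : Ray D R')
    (hd : x R * y R' - x R' * y R ≠ 0) : Mut D R R' (eta R) (eta R') := by
  have hRU : R ∉ US (eta S) S D := by
    intro h
    obtain ⟨h1, h2⟩ := (K.ker R).mp h
    exact hd (by rw [h1, h2]; ring)
  obtain ⟨hRC, hM⟩ := X.aset.mtl S hS R hR hRU
  have h3 := X.f3 O P L phi D R S (eta R) (eta S) X.inj X.bin hR (X.aset.ray S hS) hM.m1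
  refine (X.aset.mtl R hRC R' hR' ?_).2
  intro h
  obtain ⟨n, hn, hn'⟩ := h3 h
  obtain ⟨u, hu, b, hb, hab⟩ := Submodule.mem_sup.mp hn'
  obtain ⟨m, hm⟩ := Submodule.mem_span_singleton.mp hb
  obtain ⟨hx, hy⟩ := (K.ker u).mp hu
  have e1 : n * x R' = m * x R := by
    have := congrArg x hab
    rw [← hm, map_add, hx, map_zsmul, map_zsmul, smul_eq_mul, smul_eq_mul, zero_add] at this
    exact this.symm
  have e2 : n * y R' = m * y R := by
    have := congrArg y hab
    rw [← hm, map_add, hy, map_zsmul, map_zsmul, smul_eq_mul, smul_eq_mul, zero_add] at this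
    exact this.symm
  have e3 : n * (x R * y R' - x R' * y R) = 0 := by
    linear_combination x R * e2 - y R * e1
  exact hd ((mul_eq_zero.mp e3).resolve_left hn)

/-- the values at a ray -/
theorem ray_val {phi : L →+ (P → ℤ)} {D : AO O L} {eta : L → (RO O)ˣ} {C : Set L}
    (X : Ctx phi D eta C) {S R1 R2 : L} {x y : L →+ ℤ} (hS : S ∈ C)
    (K : Crd D eta S R1 R2 x y) {R : L} (hR : Ray D R) :
    (x R = 0 ∧ y R = 0) ∨ (x R = 1 ∧ y R = 0) ∨ (x R = 0 ∧ y R = 1) ∨ (x R = -1 ∧ y R = -1) := by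
  have h12 : R1 + R2 ∈ supp D := sum_mem X (mutr X hS K K.r1 K.r2 (by
    rw [K.x1, K.x2, K.y1, K.y2]; norm_num))
  obtain ⟨v1, v2, v3⟩ := val X hS K h12 hR.1
  have hA : y R ≠ 0 → R + R1 ∈ supp D := fun h => sum_mem X (mutr X hS K hR K.r1 (by
    rw [K.x1, K.y1]; simpa using h))
  have hB : x R ≠ 0 → R + R2 ∈ supp D := fun h => sum_mem X (mutr X hS K hR K.r2 (by
    rw [K.x2, K.y2]; simpa using h))
  by_cases hx : x R = 0
  · by_cases hy : y R = 0
    · exact Or.inl ⟨hx, hy⟩
    · obtain ⟨w1, w2, w3⟩ := val X hS K h12 (hA hy)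
      simp only [map_add, K.x1, K.y1] at w1 w2 w3
      omega
  · obtain ⟨w1, w2, w3⟩ := val X hS K h12 (hB hx)
    simp only [map_add, K.x2, K.y2] at w1 w2 w3
    by_cases hy : y R = 0
    · omega
    · obtain ⟨u1, u2, u3⟩ := val X hS K h12 (hA hy)
      simp only [map_add, K.x1, K.y1] at u1 u2 u3
      omega

/-- rays outside `US` with the same coordinates are equal -/
theorem ray_unique {phi : L →+ (P → ℤ)} {D : AO O L} {eta : L → (RO O)ˣ} {C : Set L}
    (X : Ctx phi D eta C) {S R1 R2 : L} {x y : L →+ ℤ} (hS : S ∈ C)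
    (K : Crd D eta S R1 R2 x y) {R R' : L} (hR : Ray D R) (hR' : Ray D R')
    (hn : R' ∉ US (eta S) S D) (hx : x R = x R') (hy : y R = y R') : R = R' := by
  classical
  have h12 : R1 + R2 ∈ supp D := sum_mem X (mutr X hS K K.r1 K.r2 (by
    rw [K.x1, K.x2, K.y1, K.y2]; norm_num))
  have hno : ∀ a ∈ supp D, x a = 2 * x R' → y a = 2 * y R' → False := by
    intro a ha h1 h2
    obtain ⟨w1, w2, w3⟩ := val X hS K h12 ha
    apply hn
    rw [K.ker]
    omega
  have hnR : R ∉ US (eta S) S D := by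
    intro h
    obtain ⟨h1, h2⟩ := (K.ker R).mp h
    exact hn ((K.ker R').mpr ⟨by omega, by omega⟩)
  obtain ⟨hRC', hM'⟩ := X.aset.mtl S hS R' hR' hn
  obtain ⟨hRC, hM⟩ := X.aset.mtl S hS R hR hnR
  by_contra hne
  by_cases hU : R ∈ US (eta R') R' D
  · have ha : S + R ∈ supp D := sum_mem X hM
    have haU : S + R ∉ US (eta R') R' D := by
      intro h
      have h1 := Submodule.sub_mem _ h hU
      rw [add_sub_cancel_right] at h1
      exact hM'.m1 h1
    have hb' : Bin phi R' := X.bin _ hR'.1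
    have hdis := (X.mco O P L phi D S R' (eta S) (eta R') X.inj X.bin hM').1
    have hF := X.f1 O P L phi D R' (eta R') X.inj X.bin hb' hR'.2.1 (S + R) haU
    by_cases hmeet : ∃ i, phi (S + R) i = 1 ∧ phi R' i = 1
    · by_cases hprop : ∃ i, phi (S + R) i = 0 ∧ phi R' i = 1
      · exact ha (hF.1 hmeet hprop)
      · push Not at hprop
        have hsub : ∀ i, phi R i = 0 → phi R' i = 0 := by
          intro i hi
          by_contra hi'
          have h1 : phi R' i = 1 := (hb' i).resolve_left hi'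
          have h2 : phi S i = 0 := (hdis i).resolve_right hi'
          refine hprop i ?_ h1
          rw [map_add, Pi.add_apply, h2, hi, add_zero]
        obtain ⟨k, hk⟩ := (X.inj1 O P L phi D X.fp R hR).1 R' hsub
        have h3 : x R' = k * x R := by rw [hk, map_zsmul, smul_eq_mul]
        have h4 : y R' = k * y R := by rw [hk, map_zsmul, smul_eq_mul]
        have h5 : k = 1 := by
          by_contra hk1
          apply hn
          rw [K.ker]
          have h6 : (k - 1) * x R' = 0 := by rw [← hx] at h3 ⊢; linear_combination -h3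
          have h7 : (k - 1) * y R' = 0 := by rw [← hy] at h4 ⊢; linear_combination -h4
          have hk2 : k - 1 ≠ 0 := by omega
          exact ⟨(mul_eq_zero.mp h6).resolve_left hk2, (mul_eq_zero.mp h7).resolve_left hk2⟩
        rw [h5, one_smul] at hk
        exact hne hk.symm
    · push Not at hmeet
      have hbSR : Bin phi (S + R) := X.bin _ ha
      have h1 := hF.2 (by
        intro i
        by_cases h0 : phi R' i = 0
        · exact Or.inr h0
        · left
          exact (hbSR i).resolve_right fun h => hmeet i h ((hb' i).resolve_left h0))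
      have h2 : S + R + R' ∈ supp D := by
        intro h
        rw [h, mul_zero, add_zero] at h1
        exact ha h1
      have hSk := (K.ker S).mp (H07.mem_US _ _ _)
      refine hno _ h2 ?_ ?_
      · rw [map_add, map_add, hSk.1, hx]; ring
      · rw [map_add, map_add, hSk.2, hy]; ring
  · have hMm := (X.aset.mtl R' hRC' R hR hU).2
    have h1 := sum_mem X hMm
    refine hno _ h1 ?_ ?_
    · rw [map_add, hx]; ring
    · rw [map_add, hy]; ring

/-- the third ray -/
theorem third {phi : L →+ (P → ℤ)} {D : AO O L} {eta : L → (RO O)ˣ} {C : Set L}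
    (X : Ctx phi D eta C) {S R1 R2 : L} {x y : L →+ ℤ} (hS : S ∈ C)
    (K : Crd D eta S R1 R2 x y) : ∃ R, Ray D R ∧ x R = -1 ∧ y R = -1 := by
  obtain ⟨t, u, hrev, ht⟩ := X.top
  have h1 := (K.ker t).mp (lam_le _ _ _ (ht S hS))
  have h2 : t - R1 ∈ supp D := by
    intro h
    rw [hrev] at h
    exact K.r1.1 (Pool.Agent.B5.H59.rsh_eq_zero.mp ((mul_eq_zero.mp h).resolve_left u.ne_zero))
  have h3 : x (t - R1) = -1 := by rw [map_sub, h1.1, K.x1]; norm_num
  have h4 : t - R1 ≠ 0 := by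
    intro h
    rw [h, map_zero] at h3
    norm_num at h3
  obtain ⟨n, hn, hcl⟩ := X.rsp _ h2 h4
  by_contra hcon
  push Not at hcon
  have h5 : ∀ R, Ray D R → 0 ≤ x R := by
    intro R hR
    rcases ray_val X hS K hR with h | h | h | h
    · omega
    · omega
    · omega
    · exact absurd h.2 (hcon R hR h.1)
  have h6' : ∀ a ∈ AddSubmonoid.closure {b | Ray D b}, 0 ≤ x a := by
    intro a ha
    induction ha using AddSubmonoid.closure_induction with
    | mem a ha => exact h5 a ha
    | zero => rw [map_zero]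
    | add a b _ _ ha hb => rw [map_add]; exact add_nonneg ha hb
  have h6 : 0 ≤ x (n • (t - R1)) := h6' _ hcl
  rw [map_nsmul, h3, nsmul_eq_mul] at h6
  have h7 : (0 : ℤ) < n := by exact_mod_cast hn
  linarith

/-- The structure at a base point. -/
structure Base (phi : L →+ (P → ℤ)) (D : AO O L) (eta : L → (RO O)ˣ) (S : L) (R : Fin 3 → L)
    (f : Fin 3 → Fin 3 → L →+ ℤ) : Prop where
  ray : ∀ i, Ray D (R i)
  mt : ∀ i, Mut D S (R i) (eta S) (eta (R i))
  mt2 : ∀ i j, i ≠ j → Mut D (R i) (R j) (eta (R i)) (eta (R j))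
  all : ∀ T, Ray D T → T ∉ US (eta S) S D → ∃ i, T = R i
  pos : ∀ i j, i ≠ j → f i j (R i) = 1
  neg : ∀ i j, i ≠ j → f i j (R j) = -1
  oth : ∀ i j T, Ray D T → T ≠ R i → T ≠ R j → f i j T = 0
  dia : ∀ i, f i i = 0
  us : ∀ a, a ∈ US (eta S) S D ↔ ∀ i j, f i j a = 0
  val : ∀ i j, ∀ a ∈ supp D, f i j a = 0 ∨ f i j a = 1 ∨ f i j a = -1

theorem base {phi : L →+ (P → ℤ)} {D : AO O L} {eta : L → (RO O)ˣ} {C : Set L}
    (X : Ctx phi D eta C) {S : L} (hS : S ∈ C) :
    ∃ (R : Fin 3 → L) (f : Fin 3 → Fin 3 → L →+ ℤ), Base phi D eta S R f ∧ ∀ i, R i ∈ C := by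
  obtain ⟨R1, R2, x, y, K⟩ := crd X hS
  obtain ⟨R3, hr3, hx3, hy3⟩ := third X hS K
  have h12 : R1 + R2 ∈ supp D := sum_mem X (mutr X hS K K.r1 K.r2 (by
    rw [K.x1, K.x2, K.y1, K.y2]; norm_num))
  have hn1 : R1 ∉ US (eta S) S D := fun h => by
    have := ((K.ker R1).mp h).1; rw [K.x1] at this; norm_num at this
  have hn2 : R2 ∉ US (eta S) S D := fun h => by
    have := ((K.ker R2).mp h).2; rw [K.y2] at this; norm_num at this
  have hn3 : R3 ∉ US (eta S) S D := fun h => by
    have := ((K.ker R3).mp h).1; rw [hx3] at this; norm_num at this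
  obtain ⟨c1, m1⟩ := X.aset.mtl S hS R1 K.r1 hn1
  obtain ⟨c2, m2⟩ := X.aset.mtl S hS R2 K.r2 hn2
  obtain ⟨c3, m3⟩ := X.aset.mtl S hS R3 hr3 hn3
  have hall : ∀ T, Ray D T → T ∉ US (eta S) S D → T = R1 ∨ T = R2 ∨ T = R3 := by
    intro T hT hTU
    rcases ray_val X hS K hT with h | h | h | h
    · exact absurd ((K.ker T).mpr h) hTU
    · left
      exact ray_unique X hS K hT K.r1 hn1 (by rw [h.1, K.x1]) (by rw [h.2, K.y1])
    · right; left
      exact ray_unique X hS K hT K.r2 hn2 (by rw [h.1, K.x2]) (by rw [h.2, K.y2])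
    · right; right
      exact ray_unique X hS K hT hr3 hn3 (by rw [h.1, hx3]) (by rw [h.2, hy3])
  have hzero : ∀ T, Ray D T → T ≠ R1 → T ≠ R2 → T ≠ R3 → x T = 0 ∧ y T = 0 := by
    intro T hT e1 e2 e3
    by_contra hcon
    rcases hall T hT (fun h => hcon ((K.ker T).mp h)) with h | h | h
    · exact e1 h
    · exact e2 h
    · exact e3 h
  have x1 := K.x1
  have x2 := K.x2
  have y1 := K.y1
  have y2 := K.y2
  have m12 := mutr X hS K K.r1 K.r2 (by rw [x1, x2, y1, y2]; norm_num)
  have m13 := mutr X hS K K.r1 hr3 (by rw [x1, hx3, y1, hy3]; norm_num)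
  have m21 := mutr X hS K K.r2 K.r1 (by rw [x1, x2, y1, y2]; norm_num)
  have m23 := mutr X hS K K.r2 hr3 (by rw [x2, hx3, y2, hy3]; norm_num)
  have m31 := mutr X hS K hr3 K.r1 (by rw [x1, hx3, y1, hy3]; norm_num)
  have m32 := mutr X hS K hr3 K.r2 (by rw [x2, hx3, y2, hy3]; norm_num)
  refine ⟨![R1, R2, R3], fun i j => (![x, y, 0] : Fin 3 → L →+ ℤ) i - (![x, y, 0] : Fin 3 → L →+ ℤ) j,
    ⟨?_, ?_, ?_, ?_, ?_, ?_, ?_, ?_, ?_, ?_⟩, ?_⟩
  · intro i; fin_cases i
    · exact K.r1
    · exact K.r2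
    · exact hr3
  · intro i; fin_cases i
    · exact m1
    · exact m2
    · exact m3
  · intro i j hij
    fin_cases i <;> fin_cases j
    · exact absurd rfl hij
    · exact m12
    · exact m13
    · exact m21
    · exact absurd rfl hij
    · exact m23
    · exact m31
    · exact m32
    · exact absurd rfl hij
  · intro T hT hTU
    rcases hall T hT hTU with h | h | h
    · exact ⟨0, h⟩
    · exact ⟨1, h⟩
    · exact ⟨2, h⟩
  · intro i j hij
    fin_cases i <;> fin_cases j <;>
      first | exact absurd rfl hij | simp [x1, x2, y1, y2, hx3, hy3]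
  · intro i j hij
    fin_cases i <;> fin_cases j <;>
      first | exact absurd rfl hij | simp [x1, x2, y1, y2, hx3, hy3]
  · intro i j T hT hi hj
    by_cases e1 : T = R1
    · fin_cases i <;> fin_cases j <;>
        first | exact absurd e1 hi | exact absurd e1 hj | simp [e1, y1]
    · by_cases e2 : T = R2
      · fin_cases i <;> fin_cases j <;>
          first | exact absurd e2 hi | exact absurd e2 hj | simp [e2, x2]
      · by_cases e3 : T = R3
        · fin_cases i <;> fin_cases j <;>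
            first | exact absurd e3 hi | exact absurd e3 hj | simp [e3, hx3, hy3]
        · obtain ⟨z1, z2⟩ := hzero T hT e1 e2 e3
          fin_cases i <;> fin_cases j <;> simp [z1, z2]
  · intro i; simp
  · intro a
    rw [K.ker a]
    constructor
    · rintro ⟨h1, h2⟩ i j
      fin_cases i <;> fin_cases j <;> simp [h1, h2]
    · intro h
      have h1 := h 0 2
      have h2 := h 1 2
      simp at h1 h2
      exact ⟨h1, h2⟩
  · intro i j a ha
    obtain ⟨w1, w2, w3⟩ := val X hS K h12 ha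
    fin_cases i <;> fin_cases j <;> simp <;> omega
  · intro i; fin_cases i
    · exact c1
    · exact c2
    · exact c3

/-- The functional of a pair. -/
structure Pr (D : AO O L) (Z : Fin 4 → L) (i j : Fin 4) (f : L →+ ℤ) : Prop where
  pos : f (Z i) = 1
  neg : f (Z j) = -1
  oth : ∀ T, Ray D T → T ≠ Z i → T ≠ Z j → f T = 0

theorem Pr.unique {D : AO O L} (hrk : rk {b | Ray D b} = Module.finrank ℤ L) {Z : Fin 4 → L}
    {i j : Fin 4} {f g : L →+ ℤ} (hf : Pr D Z i j f) (hg : Pr D Z i j g) : f = g := by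
  have h1 : ∀ b, Ray D b → (f - g) b = 0 := by
    intro b hb
    by_cases e1 : b = Z i
    · rw [e1, AddMonoidHom.sub_apply, hf.pos, hg.pos, sub_self]
    · by_cases e2 : b = Z j
      · rw [e2, AddMonoidHom.sub_apply, hf.neg, hg.neg, sub_self]
      · rw [AddMonoidHom.sub_apply, hf.oth b hb e1 e2, hg.oth b hb e1 e2, sub_self]
  have h2 : Module.finrank ℤ (L ⧸ Submodule.span ℤ {b | Ray D b}) = 0 := by
    have h3 := Submodule.finrank_quotient_add_finrank (Submodule.span ℤ {b | Ray D b})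
    unfold rk at hrk
    omega
  rw [Module.finrank_eq_zero_iff] at h2
  rw [← sub_eq_zero]
  refine AddMonoidHom.ext fun a => ?_
  obtain ⟨n, hn, h⟩ := h2 (Submodule.Quotient.mk a)
  rw [← Submodule.Quotient.mk_smul, Submodule.Quotient.mk_eq_zero] at h
  have h4 : ∀ c ∈ Submodule.span ℤ {b | Ray D b}, (f - g) c = 0 := by
    intro c hc
    induction hc using Submodule.span_induction with
    | mem c hc => exact h1 c hc
    | zero => exact map_zero _
    | add c d _ _ hc hd => rw [map_add, hc, hd, add_zero]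
    | smul k c _ hc => rw [map_zsmul, hc, smul_zero]
  have h5 := h4 _ h
  rw [map_zsmul, smul_eq_mul] at h5
  exact (mul_eq_zero.mp h5).resolve_left hn

/-- (AM_FOU) -/
theorem fou (hU : UniKS) (hDu : DuaS) (hF1 : F1S) (hF3 : F3S) (hM : McoS) (hI : Inj1S)
    (hT : TopS) (hR : RaySpanS) (hE2 : E2S) : FouS := by
  classical
  intro O _ _ _ _ P L _ _ _ _ _ phi D eta θ C hmin h2 hA S hS
  obtain ⟨-, hthin, -, -, hrk, -⟩ := hE2 O P L phi D hmin.fp.dd h2
  have X : Ctx phi D eta C :=
    { f1 := hF1, f3 := hF3, mco := hM, inj1 := hI, dua := hDu, inj := hmin.fp.dd.inj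
      bin := hmin.fp.dd.bin, fp := hmin.fp, rks := hrk, aset := hA
      uni := fun B hB T hTs hf => hU O P L phi D B (eta B) θ T hmin h2 (hA.ray B hB) (hA.v0 B hB)
        (hA.ns B hB) hTs hf
      rsp := by
        obtain ⟨lam, hlam, -⟩ := hmin.fp.dd.st.2
        exact (hR O L D ⟨lam, hlam⟩ hthin).1
      top := by
        obtain ⟨t, u, h3, -, h4⟩ := hT O P L phi D hmin.fp.dd h2
        exact ⟨t, u, h3, fun B hB => h4 B (eta B) (hA.ray B hB) (hA.v0 B hB)⟩ }
  obtain ⟨R, f, hB, hRC⟩ := base X hS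
  set Z : Fin 4 → L := Fin.cons S R with hZ
  have hZC : ∀ i, Z i ∈ C := by
    intro i
    refine Fin.cases ?_ (fun j => ?_) i
    · exact hS
    · exact hRC j
  have hZray : ∀ i, Ray D (Z i) := fun i => hA.ray _ (hZC i)
  have symm : ∀ {A B : L}, Mut D A B (eta A) (eta B) → Mut D B A (eta B) (eta A) :=
    fun h => ⟨h.r1, h.r0, h.m1, h.m0⟩
  have hmut : ∀ i j, i ≠ j → Mut D (Z i) (Z j) (eta (Z i)) (eta (Z j)) := by
    intro i j
    refine Fin.cases ?_ (fun i' => ?_) i
    · refine Fin.cases ?_ (fun j' => ?_) j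
      · intro h; exact absurd rfl h
      · intro _; exact hB.mt j'
    · refine Fin.cases ?_ (fun j' => ?_) j
      · intro _; exact symm (hB.mt i')
      · intro h
        exact hB.mt2 i' j' fun e => h (by rw [e])
  have hinjZ : Function.Injective Z := by
    intro i j hij
    by_contra hne
    have h3 := (hmut i j hne).m0
    rw [← hij] at h3
    exact h3 (H07.mem_US _ _ _)
  choose Rb fb hbase hRbC using fun i : Fin 4 => base X (hZC i)
  -- the index of `Z j` at the base `Z i`
  have hidx : ∀ i j : Fin 4, ∃ m : Fin 3, j ≠ i → Z j = Rb i m := by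
    intro i j
    by_cases h : j = i
    · exact ⟨0, fun h' => absurd h h'⟩
    · obtain ⟨m, hm⟩ := (hbase i).all (Z j) (hZray j) (hmut i j (Ne.symm h)).m0
      exact ⟨m, fun _ => hm⟩
  choose idx hidx using hidx
  have hidx_inj : ∀ i j k, j ≠ i → k ≠ i → j ≠ k → idx i j ≠ idx i k := by
    intro i j k hj hk hjk h
    apply hjk
    apply hinjZ
    rw [hidx i j hj, hidx i k hk, h]
  have hsurj : ∀ (i : Fin 4) (m : Fin 3), ∃ j, j ≠ i ∧ idx i j = m := by
    intro i m
    let g : {j : Fin 4 // j ≠ i} → Fin 3 := fun j => idx i j.1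
    have hg : Function.Injective g := by
      intro a b hab
      by_contra hne
      exact hidx_inj i a.1 b.1 a.2 b.2 (fun h => hne (Subtype.ext h)) hab
    have hcard : Fintype.card {j : Fin 4 // j ≠ i} = Fintype.card (Fin 3) := by
      rw [Fintype.card_subtype_compl, Fintype.card_fin, Fintype.card_fin]
      simp
    have hbij := (Fintype.bijective_iff_injective_and_card g).mpr ⟨hg, hcard⟩
    obtain ⟨j, hj⟩ := hbij.2 m
    exact ⟨j.1, j.2, hj⟩
  have hPr : ∀ i j k, j ≠ i → k ≠ i → j ≠ k → Pr D Z j k (fb i (idx i j) (idx i k)) := by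
    intro i j k hj hk hjk
    have hne := hidx_inj i j k hj hk hjk
    refine ⟨?_, ?_, ?_⟩
    · have := (hbase i).pos _ _ hne
      rwa [← hidx i j hj] at this
    · have := (hbase i).neg _ _ hne
      rwa [← hidx i k hk] at this
    · intro T hT h3 h4
      refine (hbase i).oth _ _ T hT ?_ ?_
      · rwa [← hidx i j hj]
      · rwa [← hidx i k hk]
  -- a base point outside of a pair
  have hout : ∀ j k : Fin 4, ∃ i, j ≠ i ∧ k ≠ i := by decide
  choose o ho1 ho2 using hout
  set dl : Fin 4 → Fin 4 → L →+ ℤ := fun j k =>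
    if j = k then 0 else fb (o j k) (idx (o j k) j) (idx (o j k) k) with hdl
  have hdia : ∀ i, dl i i = 0 := by intro i; simp [hdl]
  have hdlPr : ∀ j k, j ≠ k → Pr D Z j k (dl j k) := by
    intro j k hjk
    simp only [hdl, if_neg hjk]
    exact hPr (o j k) j k (ho1 j k) (ho2 j k) hjk
  have hdleq : ∀ i j k, j ≠ i → k ≠ i → j ≠ k → dl j k = fb i (idx i j) (idx i k) := by
    intro i j k hj hk hjk
    exact Pr.unique hrk (hdlPr j k hjk) (hPr i j k hj hk hjk)
  refine ⟨Z, dl, ⟨hinjZ, hmut, ?_, ?_, ?_, ?_, ?_, ?_, hdia, ?_⟩, rfl, hZC⟩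
  · intro i j hij
    exact (hM O P L phi D (Z i) (Z j) (eta (Z i)) (eta (Z j)) X.inj X.bin (hmut i j hij)).1
  · intro i j
    by_cases hij : i = j
    · rw [hij]
    · exact (hM O P L phi D (Z i) (Z j) (eta (Z i)) (eta (Z j)) X.inj X.bin
        (hmut i j hij)).2.1.symm
  · intro i a
    rw [(hbase i).us a]
    constructor
    · intro h j k hj hk
      by_cases hjk : j = k
      · rw [hjk, hdia]; rfl
      · rw [hdleq i j k hj hk hjk]; exact h _ _
    · intro h m n
      obtain ⟨j, hj, rfl⟩ := hsurj i m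
      obtain ⟨k, hk, rfl⟩ := hsurj i n
      by_cases hjk : j = k
      · rw [hjk, (hbase i).dia]; rfl
      · rw [← hdleq i j k hj hk hjk]
        exact h j k hj hk
  · intro i j hij; exact (hdlPr i j hij).pos
  · intro i j hij; exact (hdlPr i j hij).neg
  · intro i j T hT h3 h4
    by_cases hij : i = j
    · rw [hij, hdia]; rfl
    · exact (hdlPr i j hij).oth T hT h3 h4
  · intro i j a ha
    by_cases hij : i = j
    · left; rw [hij, hdia]; rfl
    · rw [hdleq (o i j) i j (ho1 i j) (ho2 i j) hij]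
      exact (hbase _).val _ _ a ha

end Pool.Agent.B5.H45.Fou
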